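import Pool.Agent.H.MP_398f0f_lc.Gad

set_option autoImplicit false

namespace Pool.Agent.Results.MP_398f0f_lc.Full

open Pool.Agent.Lib.CX Pool.Agent.H.MP_398f0f_lc

/-- The list `N` is, up to reordering, the list of out-neighbourhoods of a tournament. -/
def Realised (N : List (List ℕ)) : Prop :=
  ∃ T : Fin N.length → Fin N.length → Prop, (∀ v, ¬ T v v) ∧ (∀ u v, u ≠ v → Xor (T u v) (T v u)) ∧
    ∃ σ : Equiv.Perm (Fin N.length), ∀ v w, T v w ↔ w.1 ∈ N.get (σ v)

lemma real_iff (N : List (List ℕ)) :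
    Realised N ↔ RealN N.length (fun r v => v ∈ N.getD r []) fun _ => 0 := by
  constructor
  · rintro ⟨T, h1, h2, σ, h3⟩
    refine ⟨fun u => if h : u < N.length then σ ⟨u, h⟩ else 0, fun u hu => ?_, fun u hu v hv e => ?_⟩
    · simpa [hu, h3] using h1 ⟨u, hu⟩
    · simpa [hu, hv, h3, xor_iff_iff_not] using h2 ⟨u, hu⟩ ⟨v, hv⟩ (by simpa using e)
  · rintro ⟨σ, a, b⟩
    let s : Fin N.length → Fin N.length := fun u => ⟨σ u, (a u u.2).1⟩
    have i : Function.Injective s := fun u v e =>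
      Fin.ext (inj_of (G := fun r v => v ∈ N.getD r []) (fun u hu => (a u hu).2.2) b u u.2 v v.2 (congrArg Fin.val e))
    refine ⟨fun v w => w.1 ∈ N.get (s v), fun v => ?_, fun u v e => ?_,
      Equiv.ofBijective s (Finite.injective_iff_bijective.1 i), fun _ _ => Iff.rfl⟩
    · simpa [s, (a v v.2).1] using (a v v.2).2.2
    · simpa [s, (a u u.2).1, (a v v.2).1, xor_iff_iff_not] using b u u.2 v v.2 fun h => e (Fin.ext h)

lemma RealN.congr {n : ℕ} {A B : ℕ → ℕ → Prop} {c : ℕ → ℕ} (h : ∀ r < n, ∀ v < n, A r v ↔ B r v) :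
    RealN n A c ↔ RealN n B c := by
  refine exists_congr fun σ => ⟨fun ⟨a, b⟩ => ⟨fun u hu => ?_, fun u hu v hv e => ?_⟩,
    fun ⟨a, b⟩ => ⟨fun u hu => ?_, fun u hu v hv e => ?_⟩⟩
  · rw [← h _ (a u hu).1 u hu]
    exact a u hu
  · rw [← h _ (a u hu).1 v hv, ← h _ (a v hv).1 u hu]
    exact b u hu v hv e
  · rw [h _ (a u hu).1 u hu]
    exact a u hu
  · rw [h _ (a u hu).1 v hv, h _ (a v hv).1 u hu]
    exact b u hu v hv e

instance (n q : ℕ) (A : ℕ → ℕ → Prop) [∀ r v, Decidable (A r v)] (c : ℕ → ℕ) (r v : ℕ) :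
    Decidable (big n q A c r v) := by unfold big; infer_instance

section
set_option synthInstance.maxSize 4000

def innB (k i x i' x' : ℕ) : Bool := decide (inn k i x i' x')
def cpB (φ : F) (k j k' j' : ℕ) : Bool := decide (cp φ k j k' j')

@[fun_prop] lemma innB_pt {α : Type} [Enc α] {k i x i' x' : α → ℕ} (h1 : PT k) (h2 : PT i) (h3 : PT x)
    (h4 : PT i') (h5 : PT x') : PT fun a => innB (k a) (i a) (x a) (i' a) (x' a) := by
  have : ∀ T : List (List ℕ), PT fun a => decide ((T.getD (k a) []).getD (7 * i a + x a) 0 /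
      2 ^ min (7 * i' a + x' a) 21 % 2 = 1) := fun T => by fun_prop
  exact this tb

@[fun_prop] lemma cpB_pt {α : Type} [Enc α] {φ : α → F} {k j k' j' : α → ℕ} (h1 : PT φ) (h2 : PT k) (h3 : PT j)
    (h4 : PT k') (h5 : PT j') : PT fun a => cpB (φ a) (k a) (j a) (k' a) (j' a) := by
  unfold cpB cp vr T3.vars
  fun_prop

def GB (φ : F) (r v : W) : Bool :=
  decide ((col r = col v ∧ innB r.1 r.2.2.1 r.2.2.2 v.2.2.1 v.2.2.2 = true) ∨ (cpB φ r.1 r.2.1 v.1 v.2.1 = true ∧ eqc r v) ∨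
  (cpB φ v.1 v.2.1 r.1 r.2.1 = true ∧ ¬ eqc v r) ∨
  (¬ cpB φ r.1 r.2.1 v.1 v.2.1 = true ∧ ¬ cpB φ v.1 v.2.1 r.1 r.2.1 = true ∧ col r < col v))

lemma GB_iff (φ : F) (r v : W) : GB φ r v = true ↔ G φ r v := by simp [GB, G, innB, cpB]

@[fun_prop] lemma GB_pt {α : Type} [Enc α] {φ : α → F} {r v : α → W} (h1 : PT φ) (h2 : PT r) (h3 : PT v) :
    PT fun a => GB (φ a) (r a) (v a) := by
  unfold GB col eqc
  fun_prop

end

def D (φ : F) : List W := (vs φ).dedup
def q (φ : F) : ℕ := (D φ).length + 2 + (15 * φ.length + 5) * ((D φ).length + 2)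
def nm (φ : F) (r : ℕ) : W := (D φ).getD r (0, 0, 0, 0)
def R (φ : F) : List ℕ := List.range ((D φ).length + (2 * q φ + 1))
def red (φ : F) : List (List ℕ) := (R φ).map fun r => (R φ).filter fun v =>
  big (D φ).length (q φ) (fun r v => GB φ (nm φ r) (nm φ v) = true) (fun r => col (nm φ r)) r v

lemma red_len (φ : F) : (red φ).length = (D φ).length + (2 * q φ + 1) := by simp [red, R]

lemma red_valid (φ : F) : ∀ l ∈ red φ, ∀ x ∈ l, x < (red φ).length := by
  rw [red_len]
  exact List.forall_mem_map.2 fun r _ x hx => List.mem_range.1 (List.mem_filter.1 hx).1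

lemma red_iff (φ : F) : RealS (vs φ) (G φ) col ↔ Realised (red φ) := by
  have h1 : RealS (vs φ) (G φ) col ↔ RealS (D φ) (G φ) col := by simp only [RealS, D, List.mem_dedup]
  rw [h1, realS_iff (D φ) (List.nodup_dedup _) (0, 0, 0, 0), real_iff, red_len,
    big_iff (t := 15 * φ.length + 5) (q := q φ) (fun u hu => ?_) rfl]
  · exact RealN.congr fun r hr v hv => by simp [red, R, hr, hv, nm, GB_iff]
  · have : (D φ).getD u (0, 0, 0, 0) ∈ vs φ := List.mem_dedup.1 (by simp [hu, ← D.eq_1])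
    generalize (D φ).getD u (0, 0, 0, 0) = z at *
    obtain ⟨k, j, i, x⟩ := z
    rw [mem_vs] at this
    simp only [col]
    omega

set_option synthInstance.maxSize 4000 in
lemma red_pt : PT red := by
  have h1 : PT D := by unfold D vs; fun_prop
  have h2 : PB q := by unfold q; fun_prop
  have h3 : PT q := by unfold q; fun_prop
  have h4 : PT R := by unfold R; fun_prop
  have h5 : ∀ (D : F → List W) (q : F → ℕ) (R : F → List ℕ), PT D → PT q → PT R → PT fun φ =>
      (R φ).map fun r => (R φ).filter fun v => big (D φ).length (q φ)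
        (fun r v => GB φ ((D φ).getD r (0, 0, 0, 0)) ((D φ).getD v (0, 0, 0, 0)) = true)
        (fun r => col ((D φ).getD r (0, 0, 0, 0))) r v := fun D q R _ _ _ => by
    unfold big col
    fun_prop
  exact h5 D q R h1 h3 h4

set_option synthInstance.maxSize 4000 in
lemma np : InNP Realised := by
  refine InNP.of_cert' (fun (N : List (List ℕ)) (c : List ℕ) =>
    (∀ u < N.length, c.getD u 0 < N.length ∧ u ∉ N.getD (c.getD u 0) []) ∧ ∀ u < N.length,
      ∀ v < N.length, u ≠ v → (v ∈ N.getD (c.getD u 0) [] ↔ u ∉ N.getD (c.getD v 0) []))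
    (fun N => N.length * (size N.length + 1) + 2) (by fun_prop) (by fun_prop) ?_ ?_
  · exact fun N c ⟨h1, h2⟩ => (real_iff N).2
      ⟨fun u => c.getD u 0, fun u hu => ⟨(h1 u hu).1, rfl, (h1 u hu).2⟩, h2⟩
  · intro N h
    obtain ⟨σ, a, b⟩ := (real_iff N).1 h
    have gd : ∀ u < N.length, ((List.range N.length).map σ).getD u 0 = σ u := fun u h => by simp [h]
    refine ⟨(List.range N.length).map σ, ?_, fun u hu => ?_, fun u hu v hv => ?_⟩
    · simpa using size_list_le (l := (List.range N.length).map σ) (B := size N.length)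
        (List.forall_mem_map.2 fun u hu => size_nat_mono (a u (List.mem_range.1 hu)).1.le)
    · rw [gd u hu]
      exact ⟨(a u hu).1, (a u hu).2.2⟩
    · rw [gd u hu, gd v hv]
      exact b u hu v hv

theorem result : NPComplete
    fun N : {N : List (List ℕ) // ∀ l ∈ N, ∀ x ∈ l, x < N.length} => Realised N.1 :=
  ⟨np.red ⟨Subtype.val, PT.id.cast fun _ => rfl, fun _ => Iff.rfl⟩,
    NPHard.of_one3 (fun φ => ⟨red φ, red_valid φ⟩) (red_pt.subtype _) fun φ h =>
      Iff.trans ⟨complete, sound h⟩ (red_iff φ)⟩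

end Pool.Agent.Results.MP_398f0f_lc.Full
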